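import Pool.Agent.H99.ADJ.Base

/-!
Module LAW of project ADJ: the law of planar Brownian motion at rational times is unique.
-/

set_option autoImplicit false

open MeasureTheory ProbabilityTheory Set Filter Topology
open scoped NNReal ENNReal NNRat

namespace Pool.ADJ

namespace LAWaux

lemma mean_zero {T Ω : Type} [MeasurableSpace Ω] {P : Measure Ω} {X : T → Ω → ℝ}
    (h : IsGaussianProcess X P) (hm : ∀ t, P[X t] = 0) (I : Finset T) :
    ∫ x, id x ∂((P.map (fun ω ↦ I.restrict (X · ω))).map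
      ⇑(PiLp.continuousLinearEquiv 2 ℝ (fun _ : I => ℝ)).symm) = 0 := by
  have := (h.hasGaussianLaw I).isGaussian_map
  rw [integral_map, integral_map]
  · simp only [id_eq]
    rw [ContinuousLinearEquiv.integral_comp_comm]
    simp only [PiLp.continuousLinearEquiv_symm_apply, WithLp.toLp_eq_zero]
    ext i
    rw [eval_integral]
    · simpa using hm _
    · exact fun _ ↦ (h.hasGaussianLaw_eval _).integrable
  any_goals fun_prop
  exact aemeasurable_pi_lambda _ fun _ ↦ h.aemeasurable _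

lemma fdd {T Ω Ω' : Type} [MeasurableSpace Ω] [MeasurableSpace Ω'] {P : Measure Ω} {P' : Measure Ω'}
    {X : T → Ω → ℝ} {X' : T → Ω' → ℝ} (h : IsGaussianProcess X P) (h' : IsGaussianProcess X' P')
    (hm : ∀ t, P[X t] = 0) (hm' : ∀ t, P'[X' t] = 0)
    (hc : ∀ s t, cov[X s, X t; P] = cov[X' s, X' t; P']) (I : Finset T) :
    P.map (fun ω ↦ I.restrict (X · ω)) = P'.map (fun ω ↦ I.restrict (X' · ω)) := by
  apply (MeasurableEquiv.toLp 2 (_ → ℝ)).map_measurableEquiv_injective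
  rw [MeasurableEquiv.coe_toLp, ← PiLp.coe_symm_continuousLinearEquiv 2 ℝ]
  have := (h.hasGaussianLaw I).isGaussian_map
  have := (h'.hasGaussianLaw I).isGaussian_map
  apply IsGaussian.ext
  · rw [mean_zero h hm I, mean_zero h' hm' I]
  · rw [← ContinuousLinearMap.toBilinForm_inj]
    refine LinearMap.BilinForm.ext_of_isSymm isPosSemidef_covarianceBilin.isSymm
      isPosSemidef_covarianceBilin.isSymm fun x ↦ ?_
    simp only [ContinuousLinearMap.toBilinForm_apply]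
    rw [PiLp.coe_symm_continuousLinearEquiv, covarianceBilin_apply_pi, covarianceBilin_apply_pi]
    · congrm ∑ i, ∑ j, _ * ?_
      rw [covariance_map, covariance_map]
      · exact hc i j
      any_goals exact Measurable.aestronglyMeasurable (by fun_prop)
      · exact aemeasurable_pi_lambda _ (fun _ ↦ h'.aemeasurable _)
      · exact aemeasurable_pi_lambda _ (fun _ ↦ h.aemeasurable _)
    · exact fun i ↦ ((h'.hasGaussianLaw I).isGaussian_map.hasGaussianLaw_id.eval i).memLp_two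
    · exact fun i ↦ ((h.hasGaussianLaw I).isGaussian_map.hasGaussianLaw_id.eval i).memLp_two

/-- the family of coordinates at rational times -/
def fam {Ω : Type} (B : ℝ → Ω → Pl) (p : ℚ≥0 × Fin 2) (ω : Ω) : ℝ := B (p.1 : ℝ) ω p.2

lemma fam_eq {Ω : Type} (B : ℝ → Ω → Pl) :
    fam B = (fun (p : ℝ≥0 × Fin 2) (ω : Ω) => B (p.1 : ℝ) ω p.2) ∘
      (fun p : ℚ≥0 × Fin 2 => (((p.1 : ℚ≥0) : ℝ≥0), p.2)) := by
  funext p ω
  have h : (((p.1 : ℚ≥0) : ℝ≥0) : ℝ) = ((p.1 : ℚ≥0) : ℝ) := rfl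
  simp only [fam, Function.comp_apply, h]

lemma gp_fam {Ω : Type} [MeasurableSpace Ω] {μ : Measure Ω} {B : ℝ → Ω → Pl} (h : PB μ B) :
    IsGaussianProcess (fam B) μ := by
  rw [fam_eq]
  exact h.gp.comp_right _

lemma meas_fam {Ω : Type} [MeasurableSpace Ω] {μ : Measure Ω} {B : ℝ → Ω → Pl} (h : PB μ B) :
    Measurable (fun ω => (fam B · ω)) := by
  refine measurable_pi_lambda _ fun p => ?_
  exact (measurable_pi_apply p.2).comp (h.meas _ (by positivity))

lemma mean_fam {Ω : Type} [MeasurableSpace Ω] {μ : Measure Ω} {B : ℝ → Ω → Pl} (h : PB μ B)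
    (p : ℚ≥0 × Fin 2) : μ[fam B p] = 0 := by
  have := h.mean (((p.1 : ℚ≥0) : ℝ≥0), p.2)
  rw [fam_eq]
  exact this

lemma cov_fam {Ω : Type} [MeasurableSpace Ω] {μ : Measure Ω} {B : ℝ → Ω → Pl} (h : PB μ B)
    (p q : ℚ≥0 × Fin 2) : cov[fam B p, fam B q; μ] =
      if p.2 = q.2 then ((min ((p.1 : ℚ≥0) : ℝ≥0) ((q.1 : ℚ≥0) : ℝ≥0) : ℝ≥0) : ℝ) else 0 := by
  have := h.cov (((p.1 : ℚ≥0) : ℝ≥0), p.2) (((q.1 : ℚ≥0) : ℝ≥0), q.2)
  rw [fam_eq]
  exact this

lemma map_fam {Ω Ω' : Type} [MeasurableSpace Ω] [MeasurableSpace Ω'] {μ : Measure Ω}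
    {μ' : Measure Ω'} {B : ℝ → Ω → Pl} {B' : ℝ → Ω' → Pl} (h : PB μ B) (h' : PB μ' B') :
    μ.map (fun ω => (fam B · ω)) = μ'.map (fun ω => (fam B' · ω)) := by
  have : IsProbabilityMeasure μ := h.gp.isProbabilityMeasure
  have : IsProbabilityMeasure μ' := h'.gp.isProbabilityMeasure
  have h1 := isProjectiveLimit_map (meas_fam h).aemeasurable (P := μ) (X := fam B)
  have h2 := isProjectiveLimit_map (meas_fam h').aemeasurable (P := μ') (X := fam B')
  have h3 : (fun I : Finset (ℚ≥0 × Fin 2) => μ.map (fun ω ↦ I.restrict (fam B · ω))) =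
      (fun I : Finset (ℚ≥0 × Fin 2) => μ'.map (fun ω ↦ I.restrict (fam B' · ω))) := by
    funext I
    exact fdd (gp_fam h) (gp_fam h') (mean_fam h) (mean_fam h')
      (fun p q => by rw [cov_fam h, cov_fam h']) I
  rw [h3] at h1
  exact h1.unique h2

end LAWaux

open LAWaux in
theorem law_thm : S_LAW := by
  intro Ω _ μ B Ω' _ μ' B' h h'
  have hC : Measurable (fun (x : ℚ≥0 × Fin 2 → ℝ) (q : ℚ≥0) (i : Fin 2) => x (q, i)) := by
    fun_prop
  have e1 : path B = (fun (x : ℚ≥0 × Fin 2 → ℝ) (q : ℚ≥0) (i : Fin 2) => x (q, i)) ∘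
      (fun ω => (fam B · ω)) := rfl
  have e2 : path B' = (fun (x : ℚ≥0 × Fin 2 → ℝ) (q : ℚ≥0) (i : Fin 2) => x (q, i)) ∘
      (fun ω => (fam B' · ω)) := rfl
  rw [e1, e2, ← Measure.map_map hC (meas_fam h), ← Measure.map_map hC (meas_fam h'), map_fam h h']

end Pool.ADJ
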