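import Pool.Agent.H99.ADJ.Base

/-!
Module MEA of project ADJ: measurability of the event that a point is linked to infinity.
-/

set_option autoImplicit false

open MeasureTheory Set Filter Topology

namespace Pool.ADJ

namespace MEAaux

/-- rational points of the plane -/
abbrev QP : Type := Fin 2 → ℚ

/-- the real point of a rational point -/
def pt (a : QP) : Pl := fun i => (a i : ℝ)

/-- indices of rational balls -/
abbrev BI : Type := QP × ℚ

/-- the rational ball -/
def bal (i : BI) : Set Pl := Metric.ball (pt i.1) (i.2 : ℝ)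

lemma isOpen_bal (i : BI) : IsOpen (bal i) := Metric.isOpen_ball

lemma preconn_bal (i : BI) : IsPreconnected (bal i) := (convex_ball _ _).isPreconnected

lemma center_mem {i : BI} {x : Pl} (hx : x ∈ bal i) : pt i.1 ∈ bal i := by
  have h : 0 < (i.2 : ℝ) := Metric.pos_of_mem_ball hx
  exact Metric.mem_ball_self h

lemma exists_bal {U : Set Pl} (hU : IsOpen U) {x : Pl} (hx : x ∈ U) :
    ∃ i : BI, x ∈ bal i ∧ bal i ⊆ U := by
  obtain ⟨ε, hε, hεU⟩ := Metric.isOpen_iff.1 hU x hx
  obtain ⟨r, hr0, hr1⟩ := exists_rat_btwn (half_pos hε)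
  have hex : ∀ i : Fin 2, ∃ a : ℚ, |(a : ℝ) - x i| < r := by
    intro i
    obtain ⟨a, ha1, ha2⟩ := exists_rat_btwn (show x i < x i + r by linarith)
    refine ⟨a, ?_⟩
    rw [abs_lt]
    constructor <;> linarith
  choose a ha using hex
  have hd : dist (pt a) x < r := by
    rw [dist_pi_lt_iff hr0]
    intro i
    rw [Real.dist_eq]
    exact ha i
  refine ⟨(a, r), ?_, ?_⟩
  · show dist x (pt a) < (r : ℝ)
    rw [dist_comm]; exact hd
  · intro y hy
    have hy' : dist y (pt a) < (r : ℝ) := hy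
    apply hεU
    rw [Metric.mem_ball]
    calc dist y x ≤ dist y (pt a) + dist (pt a) x := dist_triangle _ _ _
      _ < ε := by linarith

lemma exists_rat {U : Set Pl} (hU : IsOpen U) {x : Pl} (hx : x ∈ U) : ∃ a : QP, pt a ∈ U := by
  obtain ⟨i, hi, hiU⟩ := exists_bal hU hx
  exact ⟨i.1, hiU (center_mem hi)⟩

/-- the ball misses the set -/
def vac {ι : Type} (w : ι → Pl) (i : BI) : Prop := ∀ q, w q ∉ bal i

lemma vac_iff {ι : Type} (w : ι → Pl) (i : BI) : vac w i ↔ bal i ⊆ (closure (range w))ᶜ := by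
  constructor
  · intro h x hx hx2
    obtain ⟨y, hy1, ⟨q, rfl⟩⟩ := mem_closure_iff.1 hx2 (bal i) (isOpen_bal i) hx
    exact h q hy1
  · intro h q hq
    exact h hq (subset_closure ⟨q, rfl⟩)

/-- adjacency of vacant balls -/
def adjB {ι : Type} (w : ι → Pl) (i j : BI) : Prop := vac w i ∧ vac w j ∧ (bal i ∩ bal j).Nonempty

lemma comp_iff {ι : Type} (w : ι → Pl) {i j : BI} (hi : vac w i) (hj : vac w j) {x y : Pl}
    (hx : x ∈ bal i) (hy : y ∈ bal j) :
    y ∈ connectedComponentIn (closure (range w))ᶜ x ↔ Relation.ReflTransGen (adjB w) i j := by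
  set U : Set Pl := (closure (range w))ᶜ with hUdef
  have hxU : x ∈ U := (vac_iff w i).1 hi hx
  constructor
  · intro h
    set A : Set Pl := ⋃ k ∈ {k : BI | vac w k ∧ Relation.ReflTransGen (adjB w) i k}, bal k with hA
    set B : Set Pl := ⋃ k ∈ {k : BI | vac w k ∧ ¬ Relation.ReflTransGen (adjB w) i k}, bal k
      with hB
    have hAo : IsOpen A := isOpen_biUnion fun k _ => isOpen_bal k
    have hBo : IsOpen B := isOpen_biUnion fun k _ => isOpen_bal k
    have hdis : Disjoint A B := by
      rw [Set.disjoint_left]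
      intro z hzA hzB
      simp only [hA, hB, mem_iUnion, exists_prop] at hzA hzB
      obtain ⟨k, ⟨hk1, hk2⟩, hzk⟩ := hzA
      obtain ⟨l, ⟨hl1, hl2⟩, hzl⟩ := hzB
      exact hl2 (hk2.tail ⟨hk1, hl1, ⟨z, hzk, hzl⟩⟩)
    have hcov : connectedComponentIn U x ⊆ A ∪ B := by
      intro z hz
      have hzU : z ∈ U := connectedComponentIn_subset U x hz
      obtain ⟨k, hk, hkU⟩ := exists_bal (isClosed_closure.isOpen_compl) hzU
      have hv : vac w k := (vac_iff w k).2 hkU
      by_cases hc : Relation.ReflTransGen (adjB w) i k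
      · left
        simp only [hA, mem_iUnion, exists_prop]
        exact ⟨k, ⟨hv, hc⟩, hk⟩
      · right
        simp only [hB, mem_iUnion, exists_prop]
        exact ⟨k, ⟨hv, hc⟩, hk⟩
    have hxA : x ∈ A := by
      simp only [hA, mem_iUnion, exists_prop]
      exact ⟨i, ⟨hi, Relation.ReflTransGen.refl⟩, hx⟩
    have hsub := isPreconnected_connectedComponentIn.subset_left_of_subset_union hAo hBo hdis hcov
      ⟨x, mem_connectedComponentIn hxU, hxA⟩
    have hyA := hsub h
    simp only [hA, mem_iUnion, exists_prop] at hyA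
    obtain ⟨k, ⟨hk1, hk2⟩, hyk⟩ := hyA
    exact hk2.tail ⟨hk1, hj, ⟨y, hyk, hy⟩⟩
  · intro h
    have key : ∀ k : BI, Relation.ReflTransGen (adjB w) i k → vac w k →
        bal k ⊆ connectedComponentIn U x := by
      intro k hk
      induction hk with
      | refl =>
        intro hv
        exact (preconn_bal i).subset_connectedComponentIn hx ((vac_iff w i).1 hv)
      | tail _ hbc ih =>
        intro hv
        obtain ⟨hb, hc, ⟨z, hz1, hz2⟩⟩ := hbc
        have hzc : z ∈ connectedComponentIn U x := ih hb hz1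
        rw [connectedComponentIn_eq hzc]
        exact (preconn_bal _).subset_connectedComponentIn hz2 ((vac_iff w _).1 hc)
    exact key j h hj hy

/-! ### measurability -/

lemma meas_rtg {Ω α : Type} [MeasurableSpace Ω] [Countable α] (R : Ω → α → α → Prop)
    (hR : ∀ a b, MeasurableSet {w | R w a b}) (a b : α) :
    MeasurableSet {w | Relation.ReflTransGen (R w) a b} := by
  classical
  let P : ℕ → α → Set Ω := fun n => Nat.rec (fun b => {_w | a = b})
    (fun _ S b => ⋃ c : α, (S c ∩ {w | R w c b})) n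
  have hP0 : ∀ b, P 0 b = {_w | a = b} := fun b => rfl
  have hPs : ∀ n b, P (n + 1) b = ⋃ c : α, (P n c ∩ {w | R w c b}) := fun n b => rfl
  have hPm : ∀ n b, MeasurableSet (P n b) := by
    intro n
    induction n with
    | zero =>
      intro b
      rw [hP0]
      exact MeasurableSet.const _
    | succ n ih =>
      intro b
      rw [hPs]
      exact MeasurableSet.iUnion fun c => (ih c).inter (hR c b)
  have hEq : {w | Relation.ReflTransGen (R w) a b} = ⋃ n : ℕ, P n b := by
    ext w
    simp only [mem_ofPred_eq, mem_iUnion]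
    constructor
    · intro h
      induction h with
      | refl => exact ⟨0, rfl⟩
      | @tail c d _ hcd ih =>
        obtain ⟨n, hn⟩ := ih
        refine ⟨n + 1, ?_⟩
        rw [hPs]
        exact mem_iUnion.2 ⟨c, hn, hcd⟩
    · rintro ⟨n, hn⟩
      revert b
      induction n with
      | zero =>
        intro b hn
        have : a = b := hn
        rw [this]
      | succ n ih =>
        intro b hn
        rw [hPs] at hn
        obtain ⟨c, hc1, hc2⟩ := mem_iUnion.1 hn
        exact (ih c hc1).tail hc2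
  rw [hEq]
  exact MeasurableSet.iUnion fun n => hPm n b

lemma meas_vac {ι : Type} [Countable ι] (i : BI) : MeasurableSet {w : ι → Pl | vac w i} := by
  have : {w : ι → Pl | vac w i} = ⋂ q : ι, (fun w : ι → Pl => w q) ⁻¹' (bal i)ᶜ := by
    ext w
    simp [vac]
  rw [this]
  exact MeasurableSet.iInter fun q => measurable_pi_apply q (isOpen_bal i).measurableSet.compl

lemma meas_rtgB {ι : Type} [Countable ι] (i j : BI) :
    MeasurableSet {w : ι → Pl | Relation.ReflTransGen (adjB w) i j} := by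
  apply meas_rtg
  intro a b
  have : {w : ι → Pl | adjB w a b} = {w : ι → Pl | vac w a} ∩ ({w : ι → Pl | vac w b} ∩
      {_w | (bal a ∩ bal b).Nonempty}) := by
    ext w
    simp [adjB]
  rw [this]
  exact (meas_vac a).inter ((meas_vac b).inter (MeasurableSet.const _))

/-- `a` and `b` are off the set and in the same component -/
def same {ι : Type} (w : ι → Pl) (x y : Pl) : Prop :=
  x ∉ closure (range w) ∧ y ∈ connectedComponentIn (closure (range w))ᶜ x

lemma meas_same {ι : Type} [Countable ι] (a b : QP) :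
    MeasurableSet {w : ι → Pl | same w (pt a) (pt b)} := by
  have : {w : ι → Pl | same w (pt a) (pt b)} = ⋃ i : BI, ⋃ j : BI,
      ({_w | pt a ∈ bal i ∧ pt b ∈ bal j} ∩ ({w : ι → Pl | vac w i} ∩
        ({w : ι → Pl | vac w j} ∩ {w : ι → Pl | Relation.ReflTransGen (adjB w) i j}))) := by
    ext w
    simp only [mem_ofPred_eq, mem_iUnion, mem_inter_iff]
    constructor
    · rintro ⟨h1, h2⟩
      have h3 : pt b ∈ (closure (range w))ᶜ := connectedComponentIn_subset _ _ h2
      obtain ⟨i, hi, hiU⟩ := exists_bal (isClosed_closure.isOpen_compl)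
        (show pt a ∈ (closure (range w))ᶜ from h1)
      obtain ⟨j, hj, hjU⟩ := exists_bal (isClosed_closure.isOpen_compl) h3
      have hvi := (vac_iff w i).2 hiU
      have hvj := (vac_iff w j).2 hjU
      exact ⟨i, j, ⟨hi, hj⟩, hvi, hvj, (comp_iff w hvi hvj hi hj).1 h2⟩
    · rintro ⟨i, j, ⟨hi, hj⟩, hvi, hvj, h⟩
      exact ⟨(vac_iff w i).1 hvi hi, (comp_iff w hvi hvj hi hj).2 h⟩
  rw [this]
  exact MeasurableSet.iUnion fun i => MeasurableSet.iUnion fun j =>
    (MeasurableSet.const _).inter ((meas_vac i).inter ((meas_vac j).inter (meas_rtgB i j)))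

lemma isOpen_comp {ι : Type} (w : ι → Pl) (x : Pl) :
    IsOpen (connectedComponentIn (closure (range w))ᶜ x) :=
  (isClosed_closure.isOpen_compl).connectedComponentIn

lemma notMem_of_mem_comp {ι : Type} {w : ι → Pl} {x y : Pl}
    (h : y ∈ connectedComponentIn (closure (range w))ᶜ x) : x ∉ closure (range w) := by
  intro hx
  rw [connectedComponentIn_eq_empty (by simpa using hx)] at h
  exact h

lemma step_iff {ι : Type} (w : ι → Pl) (a b : QP) :
    Step (closure (range w)) (pt a) (pt b) ↔ same w (pt a) (pt a) ∧ same w (pt b) (pt b) ∧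
      ∃ M : ℕ, ∀ n : ℕ, ∃ c d : QP, same w (pt a) (pt c) ∧ same w (pt b) (pt d) ∧
        (‖pt c‖ ≤ M ∧ ‖pt d‖ ≤ M ∧ dist (pt c) (pt d) < 1 / ((n : ℝ) + 1)) := by
  constructor
  · rintro ⟨ha, hb, ⟨z, hz1, hz2⟩⟩
    refine ⟨⟨ha, mem_connectedComponentIn ha⟩, ⟨hb, mem_connectedComponentIn hb⟩, ?_⟩
    obtain ⟨M, hM⟩ := exists_nat_ge (‖z‖ + 1)
    refine ⟨M, fun n => ?_⟩
    have hn : (0 : ℝ) < 1 / ((n : ℝ) + 1) := by positivity
    have hn1 : 1 / ((n : ℝ) + 1) ≤ 1 := by
      rw [div_le_one (by positivity)]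
      have : (0 : ℝ) ≤ n := Nat.cast_nonneg n
      linarith
    have hball : z ∈ Metric.ball z (1 / ((n : ℝ) + 1) / 2) := Metric.mem_ball_self (by positivity)
    obtain ⟨u, hu1, hu2⟩ := mem_closure_iff.1 hz1 _ Metric.isOpen_ball hball
    obtain ⟨v, hv1, hv2⟩ := mem_closure_iff.1 hz2 _ Metric.isOpen_ball hball
    obtain ⟨c, hc⟩ := exists_rat (Metric.isOpen_ball.inter (isOpen_comp w (pt a)))
      (⟨hu1, hu2⟩ : u ∈ Metric.ball z (1 / ((n : ℝ) + 1) / 2) ∩ _)
    obtain ⟨d, hd⟩ := exists_rat (Metric.isOpen_ball.inter (isOpen_comp w (pt b)))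
      (⟨hv1, hv2⟩ : v ∈ Metric.ball z (1 / ((n : ℝ) + 1) / 2) ∩ _)
    have hc1 : dist (pt c) z < 1 / ((n : ℝ) + 1) / 2 := hc.1
    have hd1 : dist (pt d) z < 1 / ((n : ℝ) + 1) / 2 := hd.1
    have hnorm : ∀ e : Pl, dist e z < 1 / ((n : ℝ) + 1) / 2 → ‖e‖ ≤ M := by
      intro e he
      have h1 : ‖e‖ ≤ ‖z‖ + dist e z := by
        rw [dist_eq_norm]
        calc ‖e‖ = ‖z + (e - z)‖ := by congr 1; abel
          _ ≤ _ := norm_add_le _ _
      linarith
    refine ⟨c, d, ⟨ha, hc.2⟩, ⟨hb, hd.2⟩, hnorm _ hc1, hnorm _ hd1, ?_⟩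
    calc dist (pt c) (pt d) ≤ dist (pt c) z + dist (pt d) z := dist_triangle_right _ _ _
      _ < 1 / ((n : ℝ) + 1) := by linarith
  · rintro ⟨ha, hb, M, hM⟩
    refine ⟨ha.1, hb.1, ?_⟩
    choose c d hc hd hcM hdM hcd using hM
    have hcpt : IsCompact (Metric.closedBall (0 : Pl) M) := isCompact_closedBall _ _
    obtain ⟨z, _, φ, hφ, hlim⟩ := hcpt.tendsto_subseq (x := fun n => pt (c n))
      (fun n => by simpa using hcM n)
    have hlim2 : Tendsto (fun n => pt (d (φ n))) atTop (𝓝 z) := by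
      have h0 : Tendsto (fun n => dist (pt (c (φ n))) (pt (d (φ n)))) atTop (𝓝 0) := by
        have h1 : Tendsto (fun n : ℕ => 1 / ((φ n : ℝ) + 1)) atTop (𝓝 0) :=
          (tendsto_one_div_add_atTop_nhds_zero_nat (𝕜 := ℝ)).comp hφ.tendsto_atTop
        exact squeeze_zero (fun n => dist_nonneg) (fun n => (hcd (φ n)).le) h1
      exact (tendsto_iff_of_dist h0).1 hlim
    refine ⟨z, ?_, ?_⟩
    · exact mem_closure_of_tendsto hlim (Eventually.of_forall fun n => (hc (φ n)).2)
    · exact mem_closure_of_tendsto hlim2 (Eventually.of_forall fun n => (hd (φ n)).2)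

lemma meas_step {ι : Type} [Countable ι] (a b : QP) :
    MeasurableSet {w : ι → Pl | Step (closure (range w)) (pt a) (pt b)} := by
  have : {w : ι → Pl | Step (closure (range w)) (pt a) (pt b)} =
      {w : ι → Pl | same w (pt a) (pt a)} ∩ ({w : ι → Pl | same w (pt b) (pt b)} ∩
      ⋃ M : ℕ, ⋂ n : ℕ, ⋃ c : QP, ⋃ d : QP, ({w : ι → Pl | same w (pt a) (pt c)} ∩
        ({w : ι → Pl | same w (pt b) (pt d)} ∩
        {_w | ‖pt c‖ ≤ M ∧ ‖pt d‖ ≤ M ∧ dist (pt c) (pt d) < 1 / ((n : ℝ) + 1)}))) := by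
    ext w
    simp only [mem_ofPred_eq, mem_iUnion, mem_iInter, mem_inter_iff]
    exact step_iff w a b
  rw [this]
  exact (meas_same a a).inter ((meas_same b b).inter (MeasurableSet.iUnion fun M =>
    MeasurableSet.iInter fun n => MeasurableSet.iUnion fun c => MeasurableSet.iUnion fun d =>
      (meas_same a c).inter ((meas_same b d).inter (MeasurableSet.const _))))

lemma unb_iff {ι : Type} (w : ι → Pl) (b : QP) :
    ((pt b) ∉ closure (range w) ∧
      ¬ Bornology.IsBounded (connectedComponentIn (closure (range w))ᶜ (pt b))) ↔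
    ∀ M : ℕ, ∃ c : QP, same w (pt b) (pt c) ∧ (M : ℝ) < ‖pt c‖ := by
  constructor
  · rintro ⟨h1, h2⟩ M
    by_contra hcon
    push Not at hcon
    apply h2
    rw [isBounded_iff_forall_norm_le]
    refine ⟨M, fun x hx => ?_⟩
    by_contra hx2
    push Not at hx2
    have ho : IsOpen (connectedComponentIn (closure (range w))ᶜ (pt b) ∩ {x : Pl | (M : ℝ) < ‖x‖}) :=
      (isOpen_comp w (pt b)).inter (isOpen_lt continuous_const continuous_norm)
    obtain ⟨c, hc⟩ := exists_rat (x := x) ho ⟨hx, hx2⟩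
    have := hcon c ⟨h1, hc.1⟩
    have h3 : (M : ℝ) < ‖pt c‖ := hc.2
    linarith
  · intro h
    obtain ⟨c, hc, _⟩ := h 0
    refine ⟨hc.1, fun hb => ?_⟩
    obtain ⟨C, hC⟩ := isBounded_iff_forall_norm_le.1 hb
    obtain ⟨M, hM⟩ := exists_nat_ge C
    obtain ⟨d, hd, hd2⟩ := h M
    have := hC _ hd.2
    linarith

lemma meas_unb {ι : Type} [Countable ι] (b : QP) :
    MeasurableSet {w : ι → Pl | (pt b) ∉ closure (range w) ∧
      ¬ Bornology.IsBounded (connectedComponentIn (closure (range w))ᶜ (pt b))} := by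
  have : {w : ι → Pl | (pt b) ∉ closure (range w) ∧
      ¬ Bornology.IsBounded (connectedComponentIn (closure (range w))ᶜ (pt b))} =
      ⋂ M : ℕ, ⋃ c : QP, ({w : ι → Pl | same w (pt b) (pt c)} ∩ {_w | (M : ℝ) < ‖pt c‖}) := by
    ext w
    simp only [mem_ofPred_eq, mem_iUnion, mem_iInter, mem_inter_iff]
    exact unb_iff w b
  rw [this]
  exact MeasurableSet.iInter fun M => MeasurableSet.iUnion fun c =>
    (meas_same b c).inter (MeasurableSet.const _)

lemma step_congr {K : Set Pl} {x y x' y' : Pl} (hx : x' ∈ connectedComponentIn Kᶜ x)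
    (hy : y' ∈ connectedComponentIn Kᶜ y) (h : Step K x y) : Step K x' y' := by
  obtain ⟨h1, h2, h3⟩ := h
  refine ⟨connectedComponentIn_subset _ _ hx, connectedComponentIn_subset _ _ hy, ?_⟩
  rw [← connectedComponentIn_eq hx, ← connectedComponentIn_eq hy]
  exact h3

lemma linkedInf_iff {ι : Type} (w : ι → Pl) (x : Pl) :
    LinkedInf (closure (range w)) x ↔ ∃ i : BI, ∃ b : QP, x ∈ bal i ∧ vac w i ∧
      ((pt b) ∉ closure (range w) ∧
        ¬ Bornology.IsBounded (connectedComponentIn (closure (range w))ᶜ (pt b))) ∧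
      Relation.ReflTransGen (fun c d : QP => Step (closure (range w)) (pt c) (pt d)) i.1 b := by
  set K : Set Pl := closure (range w) with hK
  constructor
  · rintro ⟨y, hyK, hyu, hxy⟩
    have hxK : x ∉ K := by
      intro hx
      rcases Relation.ReflTransGen.cases_head hxy with h | ⟨c, hc, _⟩
      · exact hyK (h ▸ hx)
      · exact hc.1 hx
    obtain ⟨i, hi, hiK⟩ := exists_bal (isClosed_closure.isOpen_compl) (show x ∈ Kᶜ from hxK)
    have hvi : vac w i := (vac_iff w i).2 hiK
    have hci : pt i.1 ∈ connectedComponentIn Kᶜ x :=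
      (preconn_bal i).subset_connectedComponentIn hi hiK (center_mem hi)
    have key : ∀ z, Linked K x z → z ∉ K → ∃ b : QP, pt b ∈ connectedComponentIn Kᶜ z ∧
        Relation.ReflTransGen (fun c d : QP => Step K (pt c) (pt d)) i.1 b := by
      intro z hz
      induction hz with
      | refl => intro _; exact ⟨i.1, hci, Relation.ReflTransGen.refl⟩
      | @tail c d _ hcd ih =>
        intro hd
        obtain ⟨b, hb1, hb2⟩ := ih hcd.1
        have ho : IsOpen (connectedComponentIn Kᶜ d) :=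
          (isClosed_closure.isOpen_compl).connectedComponentIn
        obtain ⟨e, he⟩ := exists_rat ho (mem_connectedComponentIn (show d ∈ Kᶜ from hd))
        exact ⟨e, he, hb2.tail (step_congr hb1 he hcd)⟩
    obtain ⟨b, hb1, hb2⟩ := key y hxy hyK
    refine ⟨i, b, hi, hvi, ⟨connectedComponentIn_subset _ _ hb1, ?_⟩, hb2⟩
    rw [← connectedComponentIn_eq hb1]
    exact hyu
  · rintro ⟨i, b, hi, hvi, ⟨hb1, hb2⟩, hrtg⟩
    have hiK := (vac_iff w i).1 hvi
    have hxK : x ∉ K := hiK hi
    have hci : pt i.1 ∈ connectedComponentIn Kᶜ x :=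
      (preconn_bal i).subset_connectedComponentIn hi hiK (center_mem hi)
    have hstep0 : Step K x (pt i.1) := by
      refine ⟨hxK, hiK (center_mem hi), ?_⟩
      rw [← connectedComponentIn_eq hci]
      exact ⟨x, subset_closure (mem_connectedComponentIn hxK),
        subset_closure (mem_connectedComponentIn hxK)⟩
    have hl : Linked K (pt i.1) (pt b) :=
      hrtg.lift pt (fun c d h => h)
    exact ⟨pt b, hb1, hb2, Relation.ReflTransGen.head hstep0 hl⟩

end MEAaux

open MEAaux in
theorem mea_thm : S_MEA := by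
  intro ι _
  have : {p : Pl × (ι → Pl) | LinkedInf (closure (Set.range p.2)) p.1} =
      ⋃ i : BI, ⋃ b : QP, (Prod.fst ⁻¹' (bal i) ∩ (Prod.snd ⁻¹' {w : ι → Pl | vac w i} ∩
        (Prod.snd ⁻¹' {w : ι → Pl | (pt b) ∉ closure (range w) ∧
          ¬ Bornology.IsBounded (connectedComponentIn (closure (range w))ᶜ (pt b))} ∩
        Prod.snd ⁻¹' {w : ι → Pl |
          Relation.ReflTransGen (fun c d : QP => Step (closure (range w)) (pt c) (pt d)) i.1 b}))) := by
    ext ⟨x, w⟩
    simp only [mem_ofPred_eq, mem_iUnion, mem_inter_iff, mem_preimage]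
    exact linkedInf_iff w x
  rw [this]
  refine MeasurableSet.iUnion fun i => MeasurableSet.iUnion fun b => ?_
  exact (measurable_fst (isOpen_bal i).measurableSet).inter
    ((measurable_snd (meas_vac i)).inter ((measurable_snd (meas_unb b)).inter
      (measurable_snd (meas_rtg (fun (w : ι → Pl) (c d : QP) =>
        Step (closure (range w)) (pt c) (pt d)) (fun c d => meas_step c d) i.1 b))))

end Pool.ADJ
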